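import Pool.Agent.V5helper44.FZ.Stm

/-!
# Project FZ, job STX: examples of starshaped functions
-/

set_option autoImplicit false

open Filter Topology

namespace Pool.Agent.V5helper7.FZ

open Pool.Agent.V5helper44.FZ

theorem t_STX : S_STX := by
  constructor
  · intro v hv hlim ⟨A, hA⟩
    refine ⟨⟨le_rfl, fun n x y hx hxy => ?_⟩, fun x hx => ⟨?_, A, ?_⟩⟩
    · have hy : 0 < y := lt_of_lt_of_le hx hxy
      have e1 : v n * x / x = v n := mul_div_cancel_right₀ _ hx.ne'
      have e2 : v n * y / y = v n := mul_div_cancel_right₀ _ hy.ne'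
      refine ⟨mul_pos (hv n) hx, ?_⟩
      show v n * x / x ≤ v n * y / y
      rw [e1, e2]
    · exact hlim.atTop_mul_const hx
    · have h1 : Summable fun n : ℕ => 2 ^ A * (1 / Real.log (v n) ^ A) := hA.mul_left _
      refine Summable.of_norm_bounded_eventually_nat h1 ?_
      have h2 : Tendsto (fun n => Real.log (v n)) atTop atTop := Real.tendsto_log_atTop.comp hlim
      filter_upwards [h2.eventually_ge_atTop (2 * |Real.log x| + 1)] with n hn
      have h3 : Real.log (v n * x) = Real.log (v n) + Real.log x :=
        Real.log_mul (hv n).ne' hx.ne'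
      have h4 : -|Real.log x| ≤ Real.log x := neg_abs_le _
      have h5 : 0 ≤ |Real.log x| := abs_nonneg _
      have h6 : Real.log (v n) / 2 ≤ Real.log (v n * x) := by rw [h3]; linarith
      have h7 : 0 < Real.log (v n) := by linarith
      have h8 : 0 < Real.log (v n * x) := by linarith
      rw [Real.norm_of_nonneg (by positivity)]
      have h9 : (Real.log (v n) / 2) ^ A ≤ Real.log (v n * x) ^ A :=
        pow_le_pow_left₀ (by positivity) h6 A
      calc 1 / Real.log (v n * x) ^ A ≤ 1 / (Real.log (v n) / 2) ^ A :=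
            one_div_le_one_div_of_le (by positivity) h9
        _ = 2 ^ A * (1 / Real.log (v n) ^ A) := by
            rw [div_pow]
            field_simp
  · intro v hv hlim ⟨A, hA⟩
    refine ⟨⟨zero_le_one, fun n x y hx hxy => ?_⟩, fun x hx => ⟨?_, A, ?_⟩⟩
    · have hx0 : 0 < x := by linarith
      have hy0 : 0 < y := by linarith
      refine ⟨Real.rpow_pos_of_pos hx0 _, ?_⟩
      show x ^ (v n) / x ≤ y ^ (v n) / y
      have e1 : x ^ (v n) / x = x ^ (v n - 1) := by
        rw [Real.rpow_sub hx0, Real.rpow_one]
      have e2 : y ^ (v n) / y = y ^ (v n - 1) := by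
        rw [Real.rpow_sub hy0, Real.rpow_one]
      rw [e1, e2]
      exact Real.rpow_le_rpow hx0.le hxy (by linarith [hv n])
    · have hx0 : 0 < x := by linarith
      have h1 : Tendsto (fun n => Real.exp (Real.log x * v n)) atTop atTop :=
        Real.tendsto_exp_atTop.comp (hlim.const_mul_atTop (Real.log_pos hx))
      refine h1.congr fun n => ?_
      show Real.exp (Real.log x * v n) = x ^ (v n)
      rw [Real.rpow_def_of_pos hx0]
    · have hx0 : 0 < x := by linarith
      have h1 : Summable fun n : ℕ => (1 / Real.log x ^ A) * (1 / v n ^ A) := hA.mul_left _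
      refine h1.congr fun n => ?_
      show (1 / Real.log x ^ A) * (1 / v n ^ A) = 1 / Real.log (x ^ (v n)) ^ A
      rw [Real.log_rpow hx0, mul_pow]
      have h2 : Real.log x ≠ 0 := (Real.log_pos hx).ne'
      have h3 : v n ≠ 0 := by have := hv n; linarith
      field_simp

end Pool.Agent.V5helper7.FZ
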